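import Pool.Agent.R919.CL.Main

/-!
# Colmez's product formula: the criterion for pairs of embeddings
-/

set_option autoImplicit false
set_option linter.unusedSectionVars false

open Finset Pool.Agent.R484.Colmez

namespace Pool.Agent.R919.CL

/-- The embedding `z` of the field `E` of `C` is linked to the embedding `ψ`: for some subfield `E₀` of `E`
(the field of a group `C₀ ⊇ C`), `z` and `ψ` are equal on `E₀`, and each other embedding `z' ≠ ψ` of `E`
which is equal to `ψ` on `E₀` is separated from `ψ` or is the image of `z` under an element of the Galois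
group which fixes `ψ`. -/
def Linked {G : Type} [Group G] (c : G) {C : Subgroup G} (ψ z : G ⧸ C) : Prop :=
  ∃ (C₀ : Subgroup G) (h : C ≤ C₀), Subgroup.quotientMapOfLE h z = Subgroup.quotientMapOfLE h ψ ∧
    ∀ z' : G ⧸ C, Subgroup.quotientMapOfLE h z' = Subgroup.quotientMapOfLE h ψ → z' ≠ ψ →
      Separated c ψ z' ∨ ∃ u : G, u • ψ = ψ ∧ u • z = z'

/-- Each embedding `z ≠ ψ, c ψ` is separated from `ψ`, or it or its complex conjugate is linked to `ψ`. -/
def PairCriterion {G : Type} [Group G] (c : G) (C : Subgroup G) : Prop :=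
  ∀ ψ z : G ⧸ C, z ≠ ψ → z ≠ c • ψ → Separated c ψ z ∨ Linked c ψ z ∨ Linked c ψ (c • z)

open Classical

section

variable {G : Type} [Group G] [Fintype G] {c : G}

/-- The odd function of a pair of embeddings. -/
noncomputable def B (c : G) {X : Type} [MulAction G X] (ψ z : X) : G → ℚ :=
  fun g => b ψ z g - b ψ (c • z) g

theorem B_smul (hc : ∀ g : G, g * c = c * g) {X : Type} [MulAction G X] (u : G) (ψ z : X) :
    B c (u • ψ) (u • z) = B c ψ z := by
  funext g
  rw [B, B, b_smul, ← b_smul u ψ (c • z) g, ← mul_smul, ← mul_smul, hc]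

theorem B_sep {X : Type} [MulAction G X] {ψ z : X} (h : Separated c ψ z) : B c ψ z = 0 := by
  funext g
  rw [B, b_sep h, sub_self]
  rfl

theorem B_c (hcc : c * c = 1) {X : Type} [MulAction G X] (ψ z : X) :
    B c ψ (c • z) = -B c ψ z := by
  funext g
  rw [Pi.neg_apply, B, B, ← mul_smul, hcc, one_smul]
  ring

theorem B_self (hc : ∀ g : G, g * c = c * g) (hcc : c * c = 1) {C : Subgroup G} (ψ : G ⧸ C) :
    B c ψ ψ = odd c (J C) := by
  funext g
  rw [B, odd_apply, ← b_c hc hcc, b_eq_J, b_eq_J]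

theorem b_fibre {C C₀ : Subgroup G} (h : C ≤ C₀) (ψ : G ⧸ C) (z₀ : G ⧸ C₀) (g : G) :
    b (Subgroup.quotientMapOfLE h ψ) z₀ g =
      ∑ z ∈ univ.filter (fun z : G ⧸ C => Subgroup.quotientMapOfLE h z = z₀), b ψ z g := by
  simp only [b]
  rw [sum_comm]
  refine sum_congr rfl fun x _ => ?_
  have h1 : (x⁻¹ * g * x) • Subgroup.quotientMapOfLE h ψ =
      Subgroup.quotientMapOfLE h ((x⁻¹ * g * x) • ψ) := by
    obtain ⟨y, rfl⟩ := QuotientGroup.mk_surjective ψ
    rfl
  rw [h1]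
  by_cases h2 : Subgroup.quotientMapOfLE h ((x⁻¹ * g * x) • ψ) = z₀
  · rw [ind_pos h2, sum_eq_single ((x⁻¹ * g * x) • ψ), ind_pos rfl]
    · intro z _ hz
      exact ind_neg (Ne.symm hz)
    · intro h3
      exact (h3 (mem_filter.2 ⟨mem_univ _, h2⟩)).elim
  · rw [ind_neg h2]
    refine (sum_eq_zero fun z hz => ind_neg ?_).symm
    rintro rfl
    exact h2 (mem_filter.1 hz).2

theorem B_fibre (hcc : c * c = 1) {C C₀ : Subgroup G} (h : C ≤ C₀) (ψ : G ⧸ C) :
    B c (Subgroup.quotientMapOfLE h ψ) (Subgroup.quotientMapOfLE h ψ) =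
      ∑ z ∈ univ.filter (fun z : G ⧸ C => Subgroup.quotientMapOfLE h z =
        Subgroup.quotientMapOfLE h ψ), B c ψ z := by
  have hq : ∀ z : G ⧸ C, Subgroup.quotientMapOfLE h (c • z) =
      c • Subgroup.quotientMapOfLE h z := by
    intro z
    obtain ⟨y, rfl⟩ := QuotientGroup.mk_surjective z
    rfl
  funext g
  rw [B, b_fibre, b_fibre, Finset.sum_apply]
  simp only [B]
  rw [sum_sub_distrib]
  congr 1
  refine sum_nbij' (fun z => c • z) (fun z => c • z) ?_ ?_ ?_ ?_ ?_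
  · intro z hz
    rw [mem_filter] at hz ⊢
    refine ⟨mem_univ _, ?_⟩
    rw [hq, hz.2, ← mul_smul, hcc, one_smul]
  · intro z hz
    rw [mem_filter] at hz ⊢
    refine ⟨mem_univ _, ?_⟩
    rw [hq, hz.2]
  · intro z _
    rw [← mul_smul, hcc, one_smul]
  · intro z _
    rw [← mul_smul, hcc, one_smul]
  · intro z _
    rw [← mul_smul, hcc, one_smul]

/-- The function of Colmez in terms of the odd functions of pairs. -/
theorem a0_B (hc : ∀ g : G, g * c = c * g) (hcc : c * c = 1) {C : Subgroup G} (ψ : G ⧸ C)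
    {Φ : Finset (G ⧸ C)} (hΦ : IsCMType c Φ) :
    (a0 ψ Φ : G → ℚ) = (1 / 2 : ℚ) • (1 : G → ℚ) +
      (1 / (2 * Fintype.card G) : ℚ) • ∑ z ∈ Φ, B c ψ z := by
  funext g
  have h1 := a0_add hc ψ hΦ g
  have h2 : a0 ψ Φ g - a0 ψ Φ (c * g) = (∑ z ∈ Φ, B c ψ z g) / Fintype.card G := by
    rw [a0_eq, a0_eq, ← sub_div, ← sum_sub_distrib]
    congr 1
    refine sum_congr rfl fun z _ => ?_
    rw [b_c hc hcc, B]
  have h3 : a0 ψ Φ g = (1 + (∑ z ∈ Φ, B c ψ z g) / Fintype.card G) / 2 := by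
    rw [← h2]
    linarith
  rw [h3, Pi.add_apply, Pi.smul_apply, Pi.smul_apply, Pi.one_apply, smul_eq_mul, smul_eq_mul,
    Finset.sum_apply]
  ring

theorem main_crit (hc : ∀ g : G, g * c = c * g) (hcc : c * c = 1) (T : ColmezHeights G c)
    {C : Subgroup G} (h : PairCriterion c C) (ψ : G ⧸ C) {Φ : Finset (G ⧸ C)}
    (hΦ : IsCMType c Φ) : T.ht C ψ Φ = T.Z (a0 ψ Φ) := by
  obtain ⟨D, h1, h2⟩ := exists_D T
  have hav : ∀ C : Subgroup G, c ∉ C → ∑ Φ ∈ cms (G ⧸ C) c, ∑ ψ ∈ Φ, D (a0 ψ Φ) = 0 := by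
    intro C hC
    have h3 := T.average C hC
    rw [← sub_eq_zero, ← sum_sub_distrib] at h3
    rw [← h3]
    refine sum_congr rfl fun Φ hΦ => ?_
    rw [← sum_sub_distrib]
    exact sum_congr rfl fun ψ _ => h2 C ψ Φ (mem_cms.1 hΦ)
  have hJ : ∀ C : Subgroup G, D (odd c (J C)) = 0 := fun C => D_J hc hcc h1 hav C
  have hlink : ∀ z : G ⧸ C, z ≠ ψ → Linked c ψ z → D (B c ψ z) = 0 := by
    rintro z hz ⟨C₀, hC, hzψ, hall⟩
    by_cases hs : Separated c ψ z
    · rw [B_sep hs, map_zero]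
    have h3 := hJ C₀
    rw [← B_self hc hcc (Subgroup.quotientMapOfLE hC ψ), B_fibre hcc, map_sum] at h3
    have h4 : ∀ z' ∈ univ.filter (fun z' : G ⧸ C => Subgroup.quotientMapOfLE hC z' =
        Subgroup.quotientMapOfLE hC ψ), D (B c ψ z') =
        if z' ≠ ψ ∧ ¬ Separated c ψ z' then D (B c ψ z) else 0 := by
      intro z' hz'
      by_cases h5 : z' = ψ
      · rw [if_neg (fun h6 => h6.1 h5), h5, B_self hc hcc, hJ]
      · by_cases h6 : Separated c ψ z'
        · rw [if_neg (fun h7 => h7.2 h6), B_sep h6, map_zero]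
        · rw [if_pos ⟨h5, h6⟩]
          rcases hall z' (mem_filter.1 hz').2 h5 with h7 | ⟨u, hu1, hu2⟩
          · exact absurd h7 h6
          · rw [← hu2]
            conv_lhs => rw [← hu1]
            rw [B_smul hc]
    rw [sum_congr rfl h4, ← sum_filter, sum_const] at h3
    rcases smul_eq_zero.1 h3 with h5 | h5
    · exfalso
      rw [card_eq_zero] at h5
      have h6 : z ∈ (univ.filter (fun z' : G ⧸ C => Subgroup.quotientMapOfLE hC z' =
        Subgroup.quotientMapOfLE hC ψ)).filter (fun z' => z' ≠ ψ ∧ ¬ Separated c ψ z') :=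
        mem_filter.2 ⟨mem_filter.2 ⟨mem_univ _, hzψ⟩, hz, hs⟩
      rw [h5] at h6
      exact absurd h6 (notMem_empty _)
    · exact h5
  have hall : ∀ z : G ⧸ C, D (B c ψ z) = 0 := by
    intro z
    by_cases h3 : z = ψ
    · rw [h3, B_self hc hcc, hJ]
    by_cases h4 : z = c • ψ
    · rw [h4, B_c hcc, map_neg, B_self hc hcc, hJ, neg_zero]
    rcases h ψ z h3 h4 with h5 | h5 | h5
    · rw [B_sep h5, map_zero]
    · exact hlink z h3 h5
    · have h6 : c • z ≠ ψ := by
        intro h7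
        apply h4
        rw [← h7, ← mul_smul, hcc, one_smul]
      have h7 := hlink (c • z) h6 h5
      rwa [B_c hcc, map_neg, neg_eq_zero] at h7
  rw [← sub_eq_zero, ← h2 C ψ Φ hΦ, a0_B hc hcc ψ hΦ, map_add, map_smul, map_smul, map_sum, h1,
    sum_eq_zero fun z _ => hall z, smul_zero, smul_zero, add_zero]

end

end Pool.Agent.R919.CL
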