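import Pool.Agent.R919.CL.Crit

/-!
# Colmez's product formula: composita with imaginary quadratic fields
-/

set_option autoImplicit false
set_option linter.unusedSectionVars false

open Finset Pool.Agent.R484.Colmez

namespace Pool.Agent.R919.CL

variable {G : Type} [Group G] {c : G}

/-- The field `E` of `C` contains an imaginary quadratic field (the field of `C₀`), and the Galois
group acts doubly transitively on the embeddings of `E` which are equal on it: this is the action on the
embeddings of the maximal real subfield. -/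
def DoublyTransitive {G : Type} [Group G] (c : G) (C : Subgroup G) : Prop :=
  ∃ (C₀ : Subgroup G) (h : C ≤ C₀), (∀ x : G, x ∈ C₀ ∨ c * x ∈ C₀) ∧
    ∀ ψ z z' : G ⧸ C, Subgroup.quotientMapOfLE h z = Subgroup.quotientMapOfLE h ψ →
      Subgroup.quotientMapOfLE h z' = Subgroup.quotientMapOfLE h ψ → z ≠ ψ → z' ≠ ψ →
      ∃ u : G, u • ψ = ψ ∧ u • z = z'

theorem crit_of_doublyTransitive (hc : ∀ g : G, g * c = c * g) (hcc : c * c = 1) {C : Subgroup G}
    (h : DoublyTransitive c C) : PairCriterion c C := by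
  have h0 : c⁻¹ = c := inv_eq_of_mul_eq_one_left hcc
  obtain ⟨C₀, hC, h1, h2⟩ := h
  have hl : ∀ ψ z : G ⧸ C, z ≠ ψ →
      Subgroup.quotientMapOfLE hC z = Subgroup.quotientMapOfLE hC ψ → Linked c ψ z :=
    fun ψ z hz hzψ => ⟨C₀, hC, hzψ, fun z' hz' hne => Or.inr (h2 ψ z z' hzψ hz' hz hne)⟩
  intro ψ z hz1 hz2
  obtain ⟨y, rfl⟩ := QuotientGroup.mk_surjective ψ
  obtain ⟨w, rfl⟩ := QuotientGroup.mk_surjective z
  rcases h1 (y⁻¹ * w) with h3 | h3
  · refine Or.inr (Or.inl (hl _ _ hz1 ?_))
    show (QuotientGroup.mk w : G ⧸ C₀) = QuotientGroup.mk y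
    rw [eq_comm, QuotientGroup.eq]
    exact h3
  · refine Or.inr (Or.inr (hl _ _ ?_ ?_))
    · intro h4
      apply hz2
      rw [← h4, ← mul_smul, hcc, one_smul]
    · show (QuotientGroup.mk (c * w) : G ⧸ C₀) = QuotientGroup.mk y
      rw [eq_comm, QuotientGroup.eq, ← mul_assoc, hc y⁻¹, mul_assoc]
      exact h3

theorem crit_of_separated {C : Subgroup G} (h : SeparatedField c C) : PairCriterion c C :=
  fun ψ z h1 h2 => Or.inl (h ψ z h1 h2)

end Pool.Agent.R919.CL
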