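import Pool.Agent.R484.CPc

/-!
# Colmez's product formula: CM fields with separated embeddings
-/

set_option autoImplicit false
set_option linter.unusedSectionVars false

open Finset Pool.Agent.R484.Colmez

namespace Pool.Agent.R919.CL

/-- The embedding `z` is separated from the embedding `ψ`: some element of the Galois group fixes `ψ`
and maps `z` to its complex conjugate. -/
def Separated {G : Type} [Group G] (c : G) {X : Type} [MulAction G X] (ψ z : X) : Prop :=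
  ∃ u : G, u • ψ = ψ ∧ u • z = c • z

open Classical

section

variable {G : Type} [Group G] [Fintype G] {c : G} {X : Type} [MulAction G X]

/-- The number of the `h` with `h⁻¹ g h ψ = z`. -/
noncomputable def b (ψ z : X) (g : G) : ℚ := ∑ h : G, ind ((h⁻¹ * g * h) • ψ = z)

theorem b_smul (u : G) (ψ z : X) (g : G) : b (u • ψ) (u • z) g = b ψ z g := by
  rw [b, b]
  refine Fintype.sum_equiv (Equiv.mulRight u) _ _ fun h => ind_congr ?_
  rw [Equiv.coe_mulRight, mul_inv_rev, ← mul_smul, ← smul_left_cancel_iff u⁻¹, ← mul_smul,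
    ← mul_smul, inv_mul_cancel, one_smul]
  have h1 : u⁻¹ * (h⁻¹ * g * h * u) = u⁻¹ * h⁻¹ * g * (h * u) := by group
  rw [h1]

theorem b_sep {ψ z : X} (h : Separated c ψ z) (g : G) : b ψ z g = b ψ (c • z) g := by
  obtain ⟨u, h1, h2⟩ := h
  rw [← b_smul u ψ z g, h1, h2]

theorem b_c (hc : ∀ g : G, g * c = c * g) (hcc : c * c = 1) (ψ z : X) (g : G) :
    b ψ z (c * g) = b ψ (c • z) g := by
  rw [b, b]
  refine sum_congr rfl fun h _ => ind_congr ?_
  have h1 : h⁻¹ * (c * g) * h = c * (h⁻¹ * g * h) := by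
    rw [← mul_assoc, hc h⁻¹]
    simp only [mul_assoc]
  rw [h1, mul_smul, ← smul_left_cancel_iff c, ← mul_smul, hcc, one_smul]

theorem a0_eq [Fintype X] (ψ : X) (Φ : Finset X) (g : G) :
    a0 ψ Φ g = (∑ z ∈ Φ, b ψ z g) / Fintype.card G := by
  rw [a0_apply]
  congr 1
  simp only [b]
  rw [sum_comm]
  refine sum_congr rfl fun h _ => ?_
  by_cases h1 : (h⁻¹ * g * h) • ψ ∈ Φ
  · rw [ind_pos h1, sum_eq_single ((h⁻¹ * g * h) • ψ), ind_pos rfl]
    · intro z _ hz
      exact ind_neg (Ne.symm hz)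
    · intro h2
      exact absurd h1 h2
  · rw [ind_neg h1]
    refine (sum_eq_zero fun z hz => ind_neg ?_).symm
    rintro rfl
    exact h1 hz

/-- The function of Colmez does not change if the CM type is changed at separated embeddings. -/
theorem a0_congr [Fintype X] (hcc : c * c = 1) {ψ : X} {Φ Φ' : Finset X} (hΦ : IsCMType c Φ)
    (hΦ' : IsCMType c Φ') (h : ∀ z ∈ Φ, z ∉ Φ' → Separated c ψ z) :
    (a0 ψ Φ : G → ℚ) = a0 ψ Φ' := by
  funext g
  rw [a0_eq, a0_eq]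
  congr 1
  rw [← sum_inter_add_sum_sdiff Φ Φ', ← sum_inter_add_sum_sdiff Φ' Φ, inter_comm Φ' Φ]
  congr 1
  refine sum_nbij' (fun z => c • z) (fun z => c • z) ?_ ?_ ?_ ?_ ?_
  · intro z hz
    rw [mem_sdiff] at hz ⊢
    have h1 := hΦ z
    have h2 := hΦ' z
    tauto
  · intro z hz
    rw [mem_sdiff] at hz ⊢
    have h1 := hΦ z
    have h2 := hΦ' z
    tauto
  · intro z _
    rw [← mul_smul, hcc, one_smul]
  · intro z _
    rw [← mul_smul, hcc, one_smul]
  · intro z hz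
    rw [mem_sdiff] at hz
    exact b_sep (h z hz.1 hz.2) g

/-- The function of Colmez if all embeddings are separated from `ψ`. -/
theorem a0_sep [Fintype X] (hc : ∀ g : G, g * c = c * g) (hcc : c * c = 1) {ψ : X} {Φ : Finset X}
    (hΦ : IsCMType c Φ) (hψ : ψ ∈ Φ) (h : ∀ z : X, z ≠ ψ → z ≠ c • ψ → Separated c ψ z) (g : G) :
    a0 ψ Φ g = 1 / 2 + (b ψ ψ g - b ψ ψ (c * g)) / (2 * Fintype.card G) := by
  have h1 := a0_add hc ψ hΦ g
  have h2 : a0 ψ Φ g - a0 ψ Φ (c * g) = (b ψ ψ g - b ψ ψ (c * g)) / Fintype.card G := by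
    rw [a0_eq, a0_eq, ← sub_div, ← sum_sub_distrib]
    congr 1
    refine sum_eq_single ψ (fun z hz hzψ => ?_) (fun h => absurd hψ h)
    rw [b_c hc hcc, b_sep (h z hzψ ?_), sub_self]
    rintro rfl
    exact (hΦ ψ).1 hψ hz
  have h3 : a0 ψ Φ g = (1 + (b ψ ψ g - b ψ ψ (c * g)) / Fintype.card G) / 2 := by
    rw [← h2]
    linarith
  rw [h3, add_div, div_div, mul_comm (2 : ℚ)]

end

section

variable {G : Type} [Group G] [Fintype G] {c : G}

theorem b_eq_J (C : Subgroup G) (ψ : G ⧸ C) (g : G) : b ψ ψ g = J C g := by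
  obtain ⟨x, rfl⟩ := QuotientGroup.mk_surjective ψ
  have h1 : (QuotientGroup.mk x : G ⧸ C) = x • (QuotientGroup.mk 1 : G ⧸ C) := by
    rw [MulAction.Quotient.smul_mk, smul_eq_mul, mul_one]
  rw [h1, b_smul, b, J]
  refine sum_congr rfl fun h _ => ind_congr ?_
  rw [MulAction.Quotient.smul_mk, smul_eq_mul, mul_one, eq_comm, QuotientGroup.eq, inv_one, one_mul]

/-- The embeddings of the field `E` of the subgroup `C` are separated: for each embedding `ψ`, all the
embeddings except `ψ` and its complex conjugate are separated from `ψ`. -/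
def SeparatedField (c : G) (C : Subgroup G) : Prop :=
  ∀ ψ z : G ⧸ C, z ≠ ψ → z ≠ c • ψ → Separated c ψ z

/-- The maximal real subfield `F` of the field `E` of `C` is Galois over `ℚ`: the group `C ∪ c C` of `F` is
normal. -/
def RealGalois (c : G) (C : Subgroup G) : Prop :=
  ∀ g ∈ C, ∀ x : G, x⁻¹ * g * x ∈ C ∨ c * (x⁻¹ * g * x) ∈ C

/-- The only automorphisms of the field `E` of `C` are the identity and the complex conjugation: the
normalizer of `C` is `C ∪ c C`. -/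
def NoAutomorphisms (c : G) (C : Subgroup G) : Prop :=
  ∀ x : G, (∀ g ∈ C, x⁻¹ * g * x ∈ C) → x ∈ C ∨ c * x ∈ C

/-- The composita of `F^c` (the Galois closure of the maximal real subfield `F`) with the fields `ψ E` and
`z E` are different, for all embeddings `ψ`, `z` of `E` with `z ≠ ψ, c ψ`: some element of the Galois
group over `F^c` fixes `ψ` or `z`, but not both. -/
def DifferentComposita (c : G) (C : Subgroup G) : Prop :=
  ∀ ψ z : G ⧸ C, z ≠ ψ → z ≠ c • ψ →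
    ∃ u : G, (∀ w : G ⧸ C, u • w = w ∨ u • w = c • w) ∧ ¬ (u • ψ = ψ ↔ u • z = z)

theorem separated_of_composita (hcc : c * c = 1) {C : Subgroup G} (h : DifferentComposita c C) :
    SeparatedField c C := by
  intro ψ z h1 h2
  obtain ⟨u, hu, hne⟩ := h ψ z h1 h2
  by_cases h3 : u • ψ = ψ
  · have h4 : u • z ≠ z := fun h5 => hne ⟨fun _ => h5, fun _ => h3⟩
    exact ⟨u, h3, (hu z).resolve_left h4⟩
  · have h4 : u • z = z := by
      by_contra h5
      exact hne ⟨fun h6 => absurd h6 h3, fun h6 => absurd h6 h5⟩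
    refine ⟨c * u, ?_, ?_⟩
    · rw [mul_smul, (hu ψ).resolve_left h3, ← mul_smul, hcc, one_smul]
    · rw [mul_smul, h4]

theorem Separated.smul (hc : ∀ g : G, g * c = c * g) {X : Type} [MulAction G X] {ψ z : X}
    (h : Separated c ψ z) (x : G) : Separated c (x • ψ) (x • z) := by
  obtain ⟨u, h1, h2⟩ := h
  refine ⟨x * u * x⁻¹, ?_, ?_⟩
  · rw [← mul_smul, inv_mul_cancel_right, mul_smul, h1]
  · rw [← mul_smul, inv_mul_cancel_right, mul_smul, h2, ← mul_smul, ← mul_smul, hc]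

theorem separated_of_galois (hc : ∀ g : G, g * c = c * g) (hcc : c * c = 1) {C : Subgroup G}
    (h1 : RealGalois c C) (h2 : NoAutomorphisms c C) : SeparatedField c C := by
  have h0 : c⁻¹ = c := inv_eq_of_mul_eq_one_left hcc
  intro ψ z hz1 hz2
  obtain ⟨y, rfl⟩ := QuotientGroup.mk_surjective ψ
  obtain ⟨w, rfl⟩ := QuotientGroup.mk_surjective z
  set x := y⁻¹ * w with hx
  have e1 : (QuotientGroup.mk y : G ⧸ C) = y • (QuotientGroup.mk 1 : G ⧸ C) := by
    rw [MulAction.Quotient.smul_mk, smul_eq_mul, mul_one]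
  have e2 : (QuotientGroup.mk w : G ⧸ C) = y • (QuotientGroup.mk x : G ⧸ C) := by
    rw [MulAction.Quotient.smul_mk, smul_eq_mul, hx, mul_inv_cancel_left]
  rw [e1, e2]
  refine Separated.smul hc ?_ y
  have hx1 : x ∉ C := by
    intro h
    apply hz1
    rw [eq_comm, QuotientGroup.eq]
    exact h
  have hx2 : c * x ∉ C := by
    intro h
    apply hz2
    rw [eq_comm, MulAction.Quotient.smul_mk, QuotientGroup.eq, smul_eq_mul, mul_inv_rev, h0,
      hc y⁻¹, mul_assoc]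
    exact h
  have h3 : ¬ ∀ g ∈ C, x⁻¹ * g * x ∈ C := fun h => by
    rcases h2 x h with h | h
    · exact hx1 h
    · exact hx2 h
  push Not at h3
  obtain ⟨g, hg, hgx⟩ := h3
  refine ⟨g, ?_, ?_⟩
  · rw [MulAction.Quotient.smul_mk, smul_eq_mul, mul_one, eq_comm, QuotientGroup.eq, inv_one,
      one_mul]
    exact hg
  · have h4 := (h1 g hg x).resolve_left hgx
    rw [MulAction.Quotient.smul_mk, MulAction.Quotient.smul_mk, eq_comm, QuotientGroup.eq,
      smul_eq_mul, smul_eq_mul, mul_inv_rev, h0, hc, mul_assoc, ← mul_assoc x⁻¹]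
    exact h4

theorem main_sep (hc : ∀ g : G, g * c = c * g) (hcc : c * c = 1) (T : ColmezHeights G c)
    {C : Subgroup G} (h : SeparatedField c C) (ψ : G ⧸ C) {Φ : Finset (G ⧸ C)}
    (hΦ : IsCMType c Φ) : T.ht C ψ Φ = T.Z (a0 ψ Φ) := by
  obtain ⟨D, h1, h2⟩ := exists_D T
  have hav : ∀ C : Subgroup G, c ∉ C → ∑ Φ ∈ cms (G ⧸ C) c, ∑ ψ ∈ Φ, D (a0 ψ Φ) = 0 := by
    intro C hC
    have h3 := T.average C hC
    rw [← sub_eq_zero, ← sum_sub_distrib] at h3
    rw [← h3]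
    refine sum_congr rfl fun Φ hΦ => ?_
    rw [← sum_sub_distrib]
    exact sum_congr rfl fun ψ _ => h2 C ψ Φ (mem_cms.1 hΦ)
  have hJ : D (odd c (J C)) = 0 := D_J hc hcc h1 hav C
  have key : ∀ (ψ : G ⧸ C) (Φ : Finset (G ⧸ C)), IsCMType c Φ → ψ ∈ Φ → D (a0 ψ Φ) = 0 := by
    intro ψ Φ hΦ hψ
    have h3 : (a0 ψ Φ : G → ℚ) = (1 / 2 : ℚ) • (1 : G → ℚ) +
        (1 / (2 * Fintype.card G) : ℚ) • odd c (J C) := by
      funext g
      rw [a0_sep hc hcc hΦ hψ (h ψ) g, b_eq_J, b_eq_J, Pi.add_apply, Pi.smul_apply, Pi.smul_apply,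
        odd_apply, Pi.one_apply, smul_eq_mul, smul_eq_mul]
      ring
    rw [h3, map_add, map_smul, map_smul, h1, hJ, smul_zero, smul_zero, add_zero]
  rw [← sub_eq_zero, ← h2 C ψ Φ hΦ]
  by_cases hψ : ψ ∈ Φ
  · exact key ψ Φ hΦ hψ
  · have h3 : (a0 ψ Φ : G → ℚ) = 1 - a0 ψ (co Φ) := by
      funext g
      rw [Pi.sub_apply, Pi.one_apply, a0_apply, a0_apply, eq_sub_iff_add_eq, ← add_div,
        ← sum_add_distrib]
      have h4 : ∀ h : G, ind ((h⁻¹ * g * h) • ψ ∈ Φ) + ind ((h⁻¹ * g * h) • ψ ∈ co Φ) = 1 := by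
        intro h
        by_cases h5 : (h⁻¹ * g * h) • ψ ∈ Φ
        · rw [ind_pos h5, ind_neg (fun h6 => mem_co.1 h6 h5), add_zero]
        · rw [ind_neg h5, ind_pos (mem_co.2 h5), zero_add]
      rw [sum_congr rfl fun h _ => h4 h, sum_const, card_univ, nsmul_eq_mul, mul_one, div_self]
      exact_mod_cast Fintype.card_ne_zero
    rw [h3, map_sub, h1, key ψ (co Φ) hΦ.compl (mem_co.2 hψ), sub_zero]

theorem main_congr (hcc : c * c = 1) (T : ColmezHeights G c) {C : Subgroup G} (ψ : G ⧸ C)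
    {Φ Φ' : Finset (G ⧸ C)} (hΦ : IsCMType c Φ) (hΦ' : IsCMType c Φ')
    (h : ∀ z ∈ Φ, z ∉ Φ' → Separated c ψ z) :
    T.ht C ψ Φ = T.ht C ψ Φ' ∧ T.Z (a0 ψ Φ) = T.Z (a0 ψ Φ') := by
  have h1 := a0_congr (G := G) hcc hΦ hΦ' h
  obtain ⟨L, _, h2⟩ := T.linear
  rw [h2 C ψ Φ hΦ, h2 C ψ Φ' hΦ', h1]
  exact ⟨rfl, rfl⟩

end

end Pool.Agent.R919.CL
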